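import Pool.Agent.K1H5.PP.Stm

set_option autoImplicit false

/-! Passage to a maximal quotient: `t_MAX`. -/

namespace Pool.Agent.K1H94.PP

open MonoidAlgebra Pool.Agent.K1H5.PP

universe u

lemma van_bot {G : Type u} [Group G] (a : MonoidAlgebra ℤ G) (h : Van (⊥ : Subgroup G) a) :
    a = 0 := by
  classical
  rw [← coeff_eq_zero]
  ext g
  have h1 := h g
  by_contra hg
  have h2 : (a.coeff.support.filter fun x => x * g⁻¹ ∈ (⊥ : Subgroup G)) = {g} := by
    ext x
    rw [Finset.mem_filter, Subgroup.mem_bot, mul_inv_eq_one, Finset.mem_singleton,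
      Finsupp.mem_support_iff]
    constructor
    · exact fun hx => hx.2
    · rintro rfl
      exact ⟨hg, rfl⟩
  have h3 : ∑ x ∈ a.coeff.support.filter (fun x => x * g⁻¹ ∈ (⊥ : Subgroup G)), a.coeff x = 0 := by
    convert h1
  rw [h2, Finset.sum_singleton] at h3
  exact hg h3

lemma van_map (h3 : S_VN.{u}) {G : Type u} [Group G] {L : Subgroup G} [L.Normal]
    {M : Subgroup (G ⧸ L)} [M.Normal] {K : Subgroup G} [K.Normal]
    (hKM : K ≤ M.comap (QuotientGroup.mk' L)) {a : MonoidAlgebra ℤ G} (ha : Van K a) :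
    Van M (mapDomainRingHom ℤ (QuotientGroup.mk' L) a) := by
  rw [h3]
  have h4 := (h3 G K a).1 ha
  have hk : ∀ x ∈ K, ((QuotientGroup.mk' M).comp (QuotientGroup.mk' L)) x = 1 := by
    intro x hx
    have h5 := hKM hx
    rw [Subgroup.mem_comap] at h5
    rw [MonoidHom.comp_apply]
    exact (QuotientGroup.eq_one_iff _).2 h5
  have e : (QuotientGroup.mk' M).comp (QuotientGroup.mk' L) =
      (QuotientGroup.lift K ((QuotientGroup.mk' M).comp (QuotientGroup.mk' L)) hk).comp
        (QuotientGroup.mk' K) := by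
    ext x
    rfl
  have e2 : mapDomainRingHom ℤ (QuotientGroup.mk' M)
      (mapDomainRingHom ℤ (QuotientGroup.mk' L) a) =
      mapDomainRingHom ℤ ((QuotientGroup.mk' M).comp (QuotientGroup.mk' L)) a := by
    rw [mapDomainRingHom_comp]
    rfl
  rw [e2, e, mapDomainRingHom_comp, RingHom.comp_apply, h4, map_zero]

lemma chain_van (h1 : S_VM.{u}) {G : Type u} [Group G] {C : Set (Subgroup G)} (hne : C.Nonempty)
    (hC : IsChain (· ≤ ·) C) {ι : Type} (s : Finset ι) (f : ι → MonoidAlgebra ℤ G)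
    (h : ∀ i ∈ s, ∃ K ∈ C, Van K (f i)) : ∃ K ∈ C, ∀ i ∈ s, Van K (f i) := by
  classical
  induction s using Finset.induction_on with
  | empty =>
    obtain ⟨K, hK⟩ := hne
    exact ⟨K, hK, by simp⟩
  | insert i s _ ih =>
    obtain ⟨K, hK, h2⟩ := ih fun j hj => h j (Finset.mem_insert_of_mem hj)
    obtain ⟨K', hK', h3⟩ := h i (Finset.mem_insert_self i s)
    rcases hC.total hK hK' with hle | hle
    · refine ⟨K', hK', fun j hj => ?_⟩
      rcases Finset.mem_insert.1 hj with rfl | hj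
      · exact h3
      · exact h1 G K K' _ hle (h2 j hj)
    · refine ⟨K, hK, fun j hj => ?_⟩
      rcases Finset.mem_insert.1 hj with rfl | hj
      · exact h1 G K' K _ hle h3
      · exact h2 j hj

theorem t_MAX (h1 : S_VM.{u}) (h2 : S_VU.{u}) (h3 : S_VN.{u}) : S_MAX.{u} := by
  intro G _ n E hE
  obtain ⟨hEE, hE0, hEv⟩ := hE
  set s : Set (Subgroup G) := {L | L.Normal ∧ ¬ ∀ i j, Van L (E i j)} with hs
  have hbot : (⊥ : Subgroup G) ∈ s := by
    refine ⟨inferInstance, fun h => hE0 ?_⟩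
    ext1 i j
    exact van_bot _ (h i j)
  obtain ⟨L, -, hL⟩ := zorn_le_nonempty₀ s (by
    intro C hCs hC K0 hK0
    have hne : C.Nonempty := ⟨K0, hK0⟩
    refine ⟨sSup C, ⟨?_, ?_⟩, fun K hK => le_sSup hK⟩
    · refine ⟨fun x hx g => ?_⟩
      rw [Subgroup.mem_sSup_of_directedOn hne hC.directedOn] at hx ⊢
      obtain ⟨K, hK, hx⟩ := hx
      exact ⟨K, hK, (hCs hK).1.conj_mem x hx g⟩
    · intro hv
      obtain ⟨K, hK, h4⟩ := chain_van h1 hne hC (Finset.univ : Finset (Fin n × Fin n))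
        (fun p => E p.1 p.2) (fun p _ => h2 G C hne hC _ (hv p.1 p.2))
      exact (hCs hK).2 fun i j => h4 (i, j) (Finset.mem_univ _)) ⊥ hbot
  haveI hLn : L.Normal := hL.prop.1
  refine ⟨L, hLn, E.map (mapDomainRingHom ℤ (QuotientGroup.mk' L)), ⟨?_, ?_, ?_⟩, ?_⟩
  · rw [← Matrix.map_mul, hEE]
  · intro h0
    apply hL.prop.2
    intro i j
    rw [h3]
    exact congrFun (congrFun h0 i) j
  · intro i j
    exact van_map h3 (K := ⊤) (M := ⊤) (by intro x _; trivial) (hEv i j)
  · intro M hM hMb i j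
    haveI := hM
    haveI hn : (M.comap (QuotientGroup.mk' L)).Normal := inferInstance
    have hle : L ≤ M.comap (QuotientGroup.mk' L) := by
      intro x hx
      rw [Subgroup.mem_comap]
      have : QuotientGroup.mk' L x = 1 := (QuotientGroup.eq_one_iff _).2 hx
      rw [this]
      exact M.one_mem
    have hnot : M.comap (QuotientGroup.mk' L) ∉ s := by
      intro hmem
      have h4 := hL.le_of_ge hmem hle
      apply hMb
      rw [eq_bot_iff]
      intro y hy
      obtain ⟨x, rfl⟩ := QuotientGroup.mk'_surjective L y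
      have h5 : x ∈ L := h4 hy
      rw [Subgroup.mem_bot]
      exact (QuotientGroup.eq_one_iff _).2 h5
    have hv : ∀ i j, Van (M.comap (QuotientGroup.mk' L)) (E i j) := by
      by_contra hcon
      exact hnot ⟨hn, hcon⟩
    exact van_map h3 (K := M.comap (QuotientGroup.mk' L)) le_rfl (hv i j)

end Pool.Agent.K1H94.PP
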